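import Pool.Agent.H17.XW.TJ
import Pool.Agent.H66.XP.FMZ

/-!
# Exponential time in EQP, version 2: row FM2 (finitely many requirements, free look, unambiguity)
-/

set_option autoImplicit false

namespace Pool.Agent.H13.XW

open Finset Pool.Agent.H70.OQ
open Pool.Agent.H70.EH hiding T_NUM
open Pool.Agent.H78.XQ hiding T_POW T_SUM
open Pool.Agent.H6.NB hiding sg T_NUM
open Pool.Agent.H70.EI hiding T_AST
open Pool.Agent.H66.IP (Local ins sp dm IsZ scl)
open Pool.Agent.H66.IQ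
open Pool.Agent.H66.AV
open Pool.Agent.H66.XP
open Pool.Agent.H40.XP (fmy_za fmy_pt fmy_add fmy_swap)
open Pool.Agent.H17.XW (Una hide T_SU2 T_UNA T_FM2)

open Classical in
theorem pf_FM2 (hSU2 : T_SU2) (hUNA : T_UNA) (hWMX : T_WMX) (hHIT : T_HIT) (hVWX : T_VWX) (hGZX : T_GZX)
    (hSPF : Pool.Agent.H66.IP.T_SPF) (hISZ : Pool.Agent.H66.IP.T_ISZ)
    (hALG : Pool.Agent.H66.AV.T_ALG) (hOVL : Pool.Agent.H66.AV.T_OVL) : T_FM2 := by
  intro V G hG
  choose n₀ h0 using hG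
  choose n₁ hn₁ using fun j => hSU2 V (G j).1
  have hS : ∀ (j n : ℕ) (a : List Bool) (_ : n₀ j + n₁ j ≤ n ∧ 200 * a.length ≤ n), _ :=
    fun j n a h => hn₁ j n (by omega) ((G j).2 a) fun f x => by
      have h2 := h0 j a f (List.ofFn x) (by rw [List.length_ofFn]; omega)
        (by rw [List.length_ofFn]; exact h.2)
      rwa [List.length_ofFn] at h2
  choose A C hAC using hS
  refine ⟨fun j => max (n₀ j + n₁ j) (200 * (j + 16)), fun M => ?_⟩
  set N : ℕ → ℕ := fun j => max (n₀ j + n₁ j) (200 * (j + 16)) with hN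
  have hN1 : ∀ j, n₀ j + n₁ j ≤ N j := fun j => le_max_left _ _
  have hN2 : ∀ j, 200 * (j + 16) ≤ N j := fun j => le_max_right _ _
  obtain ⟨_, _, _, _, _, s6⟩ := hSPF (lo V)
  set E : Finset (ℕ × List Bool) := (s6 M).toFinset with hE
  have hmem : ∀ p, p ∈ E ↔ (sp (lo V) p).length ≤ M := by
    intro p
    rw [hE, Set.Finite.mem_toFinset]
    rfl
  obtain ⟨OO, hOO⟩ := hISZ (dm (lo V)) E
  set M' : ℕ := M + ∑ i ∈ range M, (G i).1 + 1 with hM'
  have hk : ∀ j, j < M → (G j).1 < M' := by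
    intro j hj
    have h1 : (G j).1 ≤ ∑ i ∈ range M, (G i).1 :=
      Finset.single_le_sum (f := fun i => (G i).1) (fun i _ => Nat.zero_le _) (mem_range.2 hj)
    omega
  have hn : ∀ n, n < M → n < M' := fun n hn => by omega
  -- the test functions
  let D₀ : List Bool → ℕ → ℕ → Za M' → (∀ p : {a // a ∈ E}, Cp V p.1) → ℝ := fun a j n z P =>
    if h : (n₀ j + n₁ j ≤ n ∧ 200 * a.length ≤ n) ∧ j < M ∧ n < M then
      tst ((1 / 2) ^ (n / 64)) (A j n a h.1 (hide n (G j).1 (OO P (gzx M' z))))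
        (C j n a h.1 (hide n (G j).1 (OO P (gzx M' z))))
        (fun T => OO P (ovl n (G j).1 (gzx M' z) T)) (z (⟨(G j).1, hk j h.2.1⟩, ⟨n, hn n h.2.2⟩))
    else 0
  have hD₀0 : ∀ a j n z P, 0 ≤ D₀ a j n z P := by
    intro a j n z P
    by_cases h : (n₀ j + n₁ j ≤ n ∧ 200 * a.length ≤ n) ∧ j < M ∧ n < M
    · simp only [D₀, dif_pos h]
      exact ((hAC j n a h.1).1 _ _ _).1
    · simp only [D₀, dif_neg h]
      exact le_rfl
  let D : ℕ → ℕ → Za M' → (∀ p : {a // a ∈ E}, Cp V p.1) → ℝ := fun j n z P =>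
    ∑ a ∈ adv n, D₀ a j n z P
  have hD0 : ∀ j n z P, 0 ≤ D j n z P := fun j n z P =>
    Finset.sum_nonneg fun a _ => hD₀0 a j n z P
  have hnC : (0 : ℝ) ≤ nC V E := Nat.cast_nonneg _
  have hD₀1 : ∀ a j n, ∑ z : Za M', ∑ B, ∑ P, wY V E OO (gzx M' z) B P * D₀ a j n z P ≤
      Fintype.card (Za M') * nC V E * (1 / 2) ^ (n / 100) := by
    intro a j n
    by_cases h : (n₀ j + n₁ j ≤ n ∧ 200 * a.length ≤ n) ∧ j < M ∧ n < M
    · simp only [D₀, dif_pos h]
      exact (hAC j n a h.1).2 M' (hk j h.2.1) (hn n h.2.2) E OO hOO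
    · simp only [D₀, dif_neg h, mul_zero, Finset.sum_const_zero]
      positivity
  have hD1 : ∀ j n, ∑ z : Za M', ∑ B, ∑ P, wY V E OO (gzx M' z) B P * D j n z P ≤
      Fintype.card (Za M') * nC V E * (((adv n).card : ℝ) * (1 / 2) ^ (n / 100)) := by
    intro j n
    have e1 : ∑ z : Za M', ∑ B, ∑ P, wY V E OO (gzx M' z) B P * D j n z P =
        ∑ a ∈ adv n, ∑ z : Za M', ∑ B, ∑ P, wY V E OO (gzx M' z) B P * D₀ a j n z P :=
      fmy_swap (adv n) (fun z B P => wY V E OO (gzx M' z) B P) (fun a z _ P => D₀ a j n z P)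
    rw [e1]
    refine (Finset.sum_le_sum fun a _ => hD₀1 a j n).trans (le_of_eq ?_)
    rw [Finset.sum_const, nsmul_eq_mul]
    ring
  have hcard : (0 : ℝ) < Fintype.card (Za M') := by
    have := fmy_za M'
    exact_mod_cast Fintype.card_pos
  have hne : Nonempty (∀ p : {a // a ∈ E}, Cp V p.1) :=
    ⟨fun _ => (fun _ _ => false, fun _ => false)⟩
  have hnC' : (0 : ℝ) < nC V E := by
    unfold nC
    exact_mod_cast Fintype.card_pos
  -- the weight, the hits, the tests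
  let W : Za M' → (∀ p : {a // a ∈ E}, Cp V p.1) → (∀ p : {a // a ∈ E}, Cp V p.1) → ℝ :=
    fun z B P => wY V E OO (gzx M' z) B P
  let T1 : Za M' → (∀ p : {a // a ∈ E}, Cp V p.1) → (∀ p : {a // a ∈ E}, Cp V p.1) → ℝ :=
    fun z B P => if ∃ a ∈ E, Hit V E OO (gzx M' z) P B a then 1 else 0
  let T2 : Za M' → (∀ p : {a // a ∈ E}, Cp V p.1) → (∀ p : {a // a ∈ E}, Cp V p.1) → ℝ :=
    fun z _ P => ∑ j ∈ range M, ∑ n ∈ (range M).filter (fun n => N j ≤ n), D j n z P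
  have hW0 : ∀ z B P, 0 ≤ W z B P := fun z B P => ((hWMX V E OO hOO (gzx M' z) B).1 P).1
  have hW : (Fintype.card (Za M') : ℝ) * nC V E * (3 / 4) ≤ ∑ z, ∑ B, ∑ P, W z B P := by
    have h2 : ∑ _z : Za M', ∑ _B : (∀ p : {a // a ∈ E}, Cp V p.1), (3 / 4 : ℝ) ≤
        ∑ z : Za M', ∑ B, ∑ P, wY V E OO (gzx M' z) B P :=
      Finset.sum_le_sum fun z _ => Finset.sum_le_sum fun B _ =>
        (hWMX V E OO hOO (gzx M' z) B).2.2.2.1
    refine le_trans (le_of_eq ?_) h2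
    rw [Finset.sum_const, Finset.sum_const, Finset.card_univ, Finset.card_univ, nsmul_eq_mul,
      nsmul_eq_mul, mul_assoc]
    rfl
  have hH : ∑ z, ∑ B, ∑ P, W z B P * T1 z B P ≤
      (Fintype.card (Za M') : ℝ) * nC V E * (1 / 4) := hHIT V M' E OO hOO
  have hT : ∑ z, ∑ B, ∑ P, W z B P * T2 z B P ≤
      (Fintype.card (Za M') : ℝ) * nC V E * (1 / 10) := by
    have e0 : ∑ z, ∑ B, ∑ P, W z B P * T2 z B P = ∑ j ∈ range M, ∑ z, ∑ B, ∑ P,
        W z B P * ∑ n ∈ (range M).filter (fun n => N j ≤ n), D j n z P :=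
      fmy_swap (range M) W
        (fun j z _ P => ∑ n ∈ (range M).filter (fun n => N j ≤ n), D j n z P)
    rw [e0]
    have e2 : ∀ j ∈ range M, ∑ z, ∑ B, ∑ P,
        W z B P * ∑ n ∈ (range M).filter (fun n => N j ≤ n), D j n z P ≤
        ∑ n ∈ (range M).filter (fun n => N j ≤ n),
          (Fintype.card (Za M') : ℝ) * nC V E * (((adv n).card : ℝ) * (1 / 2) ^ (n / 100)) := by
      intro j _
      have e1 : ∑ z, ∑ B, ∑ P,
          W z B P * ∑ n ∈ (range M).filter (fun n => N j ≤ n), D j n z P =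
          ∑ n ∈ (range M).filter (fun n => N j ≤ n), ∑ z, ∑ B, ∑ P, W z B P * D j n z P :=
        fmy_swap ((range M).filter (fun n => N j ≤ n)) W (fun n z _ P => D j n z P)
      rw [e1]
      exact Finset.sum_le_sum fun n _ => hD1 j n
    refine (Finset.sum_le_sum e2).trans ?_
    have e3 : ∑ j ∈ range M, ∑ n ∈ (range M).filter (fun n => N j ≤ n),
        (Fintype.card (Za M') : ℝ) * nC V E * (((adv n).card : ℝ) * (1 / 2) ^ (n / 100)) =
        Fintype.card (Za M') * nC V E * ∑ j ∈ range M,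
          ∑ n ∈ (range M).filter (fun n => N j ≤ n),
            ((adv n).card : ℝ) * (1 / 2 : ℝ) ^ (n / 100) := by
      rw [Finset.mul_sum]
      exact Finset.sum_congr rfl fun j _ => (Finset.mul_sum _ _ _).symm
    rw [e3]
    exact mul_le_mul_of_nonneg_left (fmz_geo2 M N hN2) (by positivity)
  obtain ⟨z, B, P, hw, hy⟩ : ∃ z B P, 0 < W z B P ∧ T1 z B P + T2 z B P < 1 := by
    refine fmy_pt W (fun z B P => T1 z B P + T2 z B P) hW0 ?_
    rw [fmy_add W T1 T2]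
    have h2 : 0 < (Fintype.card (Za M') : ℝ) * nC V E := mul_pos hcard hnC'
    linarith
  have hT10 : 0 ≤ T1 z B P := by
    simp only [T1]
    split_ifs <;> norm_num
  have hT20 : 0 ≤ T2 z B P :=
    Finset.sum_nonneg fun j _ => Finset.sum_nonneg fun n _ => hD0 _ _ _ _
  have hhit : ∀ a ∈ E, ¬ Hit V E OO (gzx M' z) P B a := by
    intro a ha h
    have h1 : T1 z B P = 1 := by
      simp only [T1]
      rw [if_pos ⟨a, ha, h⟩]
    linarith
  have hDz : ∑ j ∈ range M, ∑ n ∈ (range M).filter (fun n => N j ≤ n), D j n z P < 1 := by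
    have h1 : T2 z B P < 1 := by linarith
    exact h1
  have hDz' : ∀ j n, j < M → n < M → N j ≤ n → D j n z P < 1 := by
    intro j n hj hn' hNn
    refine lt_of_le_of_lt ?_ hDz
    have h1 : D j n z P ≤ ∑ n ∈ (range M).filter (fun n => N j ≤ n), D j n z P :=
      Finset.single_le_sum (f := fun n => D j n z P) (fun i _ => hD0 _ _ _ _)
        (mem_filter.2 ⟨mem_range.2 hn', hNn⟩)
    exact h1.trans (Finset.single_le_sum
      (f := fun j => ∑ n ∈ (range M).filter (fun n => N j ≤ n), D j n z P)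
      (fun i _ => Finset.sum_nonneg fun n _ => hD0 _ _ _ _) (mem_range.2 hj))
  have hfac : ∀ p : {a // a ∈ E}, lwX V E OO (gzx M' z) B P p (P p) ≠ 0 := by
    intro p h0
    refine hw.ne' ?_
    exact Finset.prod_eq_zero (Finset.mem_univ p) h0
  have hok : ∀ p : {a // a ∈ E},
      OkC (qs (sp (lo V) p.1)) (sp (lo V) p.1).length (rns (sp (lo V) p.1)) (wln (sp (lo V) p.1))
        (an V E OO (gzx M' z) P B p.1) (P p) ∧
      Ag (msk V E OO (gzx M' z) P B p.1) (B p) (P p) := by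
    intro p
    have h1 := hfac p
    unfold lwX mXp mX at h1
    by_contra h2
    rw [if_neg h2] at h1
    exact h1 rfl
  have hev : ∀ a ∈ E, ((V a.1).tree a.2).eval (OO P (gzx M' z)) = an V E OO (gzx M' z) P B a :=
    fun a ha => hVWX V E OO hOO (gzx M' z) P B (fun p => (hok p).2) a ha (hhit a ha)
  have hovz : ∀ t : Fin M' × Fin M', ovl t.2.1 t.1.1 (gzx M' z) (tbl (z t)) = gzx M' z := by
    intro t
    have h3 := hGZX.1 M' z t (z t)
    rw [Function.update_eq_self] at h3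
    exact h3.symm
  refine ⟨OO P (gzx M' z), fun p hp => ?_, fun k n hkM hnM x => ?_,
    fun j hj n hn' hNn a ha => ?_⟩
  · have hpE : p ∈ E := (hmem p).2 hp
    unfold GoodX
    have h5 : (cps (OO P (gzx M' z)) (sp (lo V) p), cst (OO P (gzx M' z)) (sp (lo V) p)) =
        P ⟨p, hpE⟩ := Prod.ext (hOO.blk P _ p hpE) (hOO.cor P _ p hpE)
    rw [h5, hev p hpE]
    exact (hok ⟨p, hpE⟩).1
  · have hkM' : k < M' := by omega
    have hnM' : n < M' := by omega
    have h2 : ovl n k (gzx M' z) (tbl (z (⟨k, hkM'⟩, ⟨n, hnM'⟩))) = gzx M' z :=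
      hovz (⟨k, hkM'⟩, ⟨n, hnM'⟩)
    refine hUNA n k (z (⟨k, hkM'⟩, ⟨n, hnM'⟩)) x _ fun q => ?_
    have h3 := ((hOVL n k (gzx M' z)).2.2.2 (lo V) E OO hOO P).2
      (tbl (z (⟨k, hkM'⟩, ⟨n, hnM'⟩))) x q
    rw [h2] at h3
    exact h3
  · have h : (n₀ j + n₁ j ≤ n ∧ 200 * a.length ≤ n) ∧ j < M ∧ n < M :=
      ⟨⟨(hN1 j).trans hNn, ha⟩, hj, hn'⟩
    have h1 : D₀ a j n z P < 1 := lt_of_le_of_lt
      (Finset.single_le_sum (f := fun a => D₀ a j n z P) (fun a _ => hD₀0 a j n z P)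
        ((mem_adv n a).2 ha)) (hDz' j n hj hn' hNn)
    simp only [D₀, dif_pos h] at h1
    set t : Fin M' × Fin M' := (⟨(G j).1, hk j h.2.1⟩, ⟨n, hn n h.2.2⟩) with ht
    have h2 : ovl n (G j).1 (gzx M' z) (tbl (z t)) = gzx M' z := by
      have h3 := hGZX.1 M' z t (z t)
      rw [Function.update_eq_self] at h3
      exact h3.symm
    have h4 : ∀ x, List.ofFn x ∈ alang (G j).1
        ((fun T => OO P (ovl n (G j).1 (gzx M' z) T)) (tbl (z t))) ↔ (z t x).1 = true := by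
      intro x
      refine hALG.1 n (G j).1 (z t) x _ fun q => ?_
      exact ((hOVL n (G j).1 (gzx M' z)).2.2.2 (lo V) E OO hOO P).2 (tbl (z t)) x q
    have h5 := ((hAC j n a h.1).1 (hide n (G j).1 (OO P (gzx M' z))) (fun T => OO P (ovl n (G j).1 (gzx M' z) T)) (z t)).2 h4 h1
    rw [h2] at h5
    exact h5

end Pool.Agent.H13.XW
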